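import Pool.Agent.H.MP_f13560_pr.HK.Fin5

/-! # Paths near the corner path in exponential last passage percolation on a square -/

open Pool.Agent.FX

namespace Pool.Agent.Results.MP_f13560_pr.NearCorner

/-- On every square of side `n = N + 1 ≥ 3`, let `v` be an up-right path other than the two corner paths; if
`n ≥ 5` assume that `v` goes through `(1, N - 1)` or `(N - 1, 1)`. Then `v` is strictly less likely to be the longest
path than the corner path. -/
theorem result (N : ℕ) (hN : 2 ≤ N) (v : ℕ → Fin (N + 1) × Fin (N + 1)) (hv : IsPath N v)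
    (h1 : ∃ k ≤ 2 * N, v k ≠ corner N k) (h2 : ∃ k ≤ 2 * N, v k ≠ (corner N k).swap)
    (h : N ≤ 3 ∨ (v N).1.val = 1 ∨ (v N).2.val = 1) :
    law N (cone N v) < law N (cone N (corner N)) :=
  HK.allHooks hN hv h1 h2 h

end Pool.Agent.Results.MP_f13560_pr.NearCorner
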