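import Pool.Agent.FY.Final2

/-! # Paths with many turns in exponential last passage percolation on a square, all sizes -/

open Pool.Agent.FX

namespace Pool.Agent.Results.MP_f13560_pr.TurnsRate

/-- There is a constant `C` such that for every square (side `n = N + 1`, `N ≥ 1`): every up-right
path with at least `C N^(8/9)` turns is strictly less likely to be the longest path than the corner
path; at most `exp (C N^(8/9) log (N + 1))` paths are at least as likely as the corner path; and every
path `v` satisfies `P(C(v)) ≤ exp (C N^(8/9)) (2/3)^(turns v) P(C(corner))`. -/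
theorem result : ∃ C : ℝ, 0 < C ∧ ∀ N : ℕ, 1 ≤ N →
    (∀ v, IsPath N v → C * (N : ℝ) ^ (8 / 9 : ℝ) ≤ turns N v →
      law N (cone N v) < law N (cone N (corner N))) ∧
    (Set.ncard {S | ∃ v, IsPath N v ∧ law N (cone N (corner N)) ≤ law N (cone N v) ∧
      S = trace N v} : ℝ) ≤ Real.exp (C * (N : ℝ) ^ (8 / 9 : ℝ) * Real.log (N + 1)) ∧
    ∀ v, IsPath N v → law N (cone N v) ≤
      ENNReal.ofReal (Real.exp (C * (N : ℝ) ^ (8 / 9 : ℝ)) * (2 / 3) ^ turns N v) *
        law N (cone N (corner N)) :=
  final2

end Pool.Agent.Results.MP_f13560_pr.TurnsRate
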